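import Pool.Agent.PFC.StmtsB2

/-! Squad PFC, row CLA: claim A. -/

noncomputable section

namespace Pool.Agent.PFC.B2.H30

open Pool.Agent.PFC.B1

theorem cla (hain : AinStmt) (hcos : CosStmt) (hqfi : QfiStmt) (hxir : XirStmt) : ClaStmt := by
  intro F Γ A' H I L S _ _ _ _ _ _ _ _ _ _ _ _ _ _ _ c sp nk σ hσ
  by_contra hcon
  obtain ⟨i, p, hi, hp, -, hpi⟩ := hcos (PowerSeries F) Γ A' I L S c sp σ
  have hfin : Module.Finite L (Co sp.j σ) := hqfi.1 (PowerSeries F) Γ A' L S sp.j σ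
  have hnull := hain F Γ A' H L S sp.j nk σ hσ (by
    intro T _ _ hT τ hτ f hf
    by_contra hf2
    exact hcon ⟨T, inferInstance, inferInstance, hT, τ, f, hτ, hf, hf2⟩)
    (Co sp.j σ) (coRp sp.j σ) p hp
  obtain ⟨s, hs⟩ := @exists_ne S hσ.1 0
  apply hs
  have h1 : σ.ρ (nk.x ^ (nk.Q - 1)) s = 0 := by
    have hQ := nk.hQ
    have h2 : nk.Q - 1 = (nk.Q - 2) + 1 := by omega
    rw [h2, pow_succ, map_mul, Module.End.mul_apply, hxir F Γ H L S nk σ hσ s, map_zero]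
  have h2 := hnull (i s) (by
    rw [← hi, h1, map_zero])
  have h3 : (p ∘ₗ i) s = s := by
    rw [hpi]
    rfl
  rw [LinearMap.comp_apply, h2] at h3
  exact h3.symm

end Pool.Agent.PFC.B2.H30
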