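import Pool.Agent.PFC.StmtsB3

/-!
Squad PFC, row FIB: the special fibre of the family is the group algebra of `V ⋊ E`.
-/

set_option autoImplicit false

noncomputable section

namespace Pool.Agent.PFC.B3.H30

open Pool.Agent.PFC Pool.Agent.PFC.B3 MvPolynomial

section grp

variable (F : Type) {V E : Type} [Field F] [CommGroup V] [Group E] (φ : E →* MulAut V)

/-- the inclusion of `F V` -/
def io : MonoidAlgebra F V →ₐ[F] MonoidAlgebra F (V ⋊[φ] E) :=
  MonoidAlgebra.lift F (MonoidAlgebra F (V ⋊[φ] E)) V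
    ((MonoidAlgebra.of F (V ⋊[φ] E)).comp SemidirectProduct.inl)

theorem io_of (v : V) : io F φ (MonoidAlgebra.of F V v) =
    MonoidAlgebra.of F (V ⋊[φ] E) (SemidirectProduct.inl v) := by
  unfold io
  rw [MonoidAlgebra.lift_of]
  rfl

theorem ac_of (e : E) (v : V) : ac F φ e (MonoidAlgebra.of F V v) =
    MonoidAlgebra.of F V (φ e v) := by
  unfold ac
  rw [MonoidAlgebra.of_apply, MonoidAlgebra.of_apply, MonoidAlgebra.mapDomainAlgHom_apply,
    MonoidAlgebra.mapDomain_single]
  rfl

theorem ofr_io (e : E) (z : MonoidAlgebra F V) :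
    MonoidAlgebra.of F (V ⋊[φ] E) (SemidirectProduct.inr e) * io F φ z =
      io F φ (ac F φ e z) * MonoidAlgebra.of F (V ⋊[φ] E) (SemidirectProduct.inr e) := by
  induction z using MonoidAlgebra.induction_on with
  | of v =>
    rw [io_of, ac_of, io_of, ← map_mul, ← map_mul]
    congr 1
    rw [SemidirectProduct.inl_aut, mul_assoc, ← map_mul, inv_mul_cancel, map_one, mul_one]
  | add x y hx hy => rw [map_add, mul_add, hx, hy, map_add, map_add, add_mul]
  | smul r x hx => rw [map_smul, mul_smul_comm, hx, map_smul, map_smul, smul_mul_assoc]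

open Classical in
/-- the component at `e` -/
def pj (e : E) : MonoidAlgebra F (V ⋊[φ] E) →ₗ[F] MonoidAlgebra F V :=
  (MonoidAlgebra.basis (V ⋊[φ] E) F).constr F
    (fun g => if g.right = e then MonoidAlgebra.of F V g.left else 0)

theorem pj_of_same (e : E) (g : V ⋊[φ] E) (h : g.right = e) :
    pj F φ e (MonoidAlgebra.of F (V ⋊[φ] E) g) = MonoidAlgebra.of F V g.left := by
  have h1 : MonoidAlgebra.of F (V ⋊[φ] E) g = MonoidAlgebra.basis (V ⋊[φ] E) F g := by
    rw [MonoidAlgebra.basis_apply, MonoidAlgebra.of_apply]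
  rw [h1]
  unfold pj
  rw [Module.Basis.constr_basis, if_pos h]

theorem pj_of_ne (e : E) (g : V ⋊[φ] E) (h : g.right ≠ e) :
    pj F φ e (MonoidAlgebra.of F (V ⋊[φ] E) g) = 0 := by
  have h1 : MonoidAlgebra.of F (V ⋊[φ] E) g = MonoidAlgebra.basis (V ⋊[φ] E) F g := by
    rw [MonoidAlgebra.basis_apply, MonoidAlgebra.of_apply]
  rw [h1]
  unfold pj
  rw [Module.Basis.constr_basis, if_neg h]

theorem pj_same (e : E) (z : MonoidAlgebra F V) :
    pj F φ e (io F φ z * MonoidAlgebra.of F (V ⋊[φ] E) (SemidirectProduct.inr e)) = z := by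
  induction z using MonoidAlgebra.induction_on with
  | of v =>
    rw [io_of, ← map_mul, pj_of_same F φ e _ (by simp)]
    simp
  | add x y hx hy => rw [map_add, add_mul, map_add, hx, hy]
  | smul r x hx => rw [map_smul, smul_mul_assoc, map_smul, hx]

theorem pj_ne (e e' : E) (h : e' ≠ e) (z : MonoidAlgebra F V) :
    pj F φ e (io F φ z * MonoidAlgebra.of F (V ⋊[φ] E) (SemidirectProduct.inr e')) = 0 := by
  induction z using MonoidAlgebra.induction_on with
  | of v =>
    rw [io_of, ← map_mul, pj_of_ne F φ e _ (by simpa using h)]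
  | add x y hx hy => rw [map_add, add_mul, map_add, hx, hy, add_zero]
  | smul r x hx => rw [map_smul, smul_mul_assoc, map_smul, hx, smul_zero]

end grp

theorem fib : FibStmt := by
  intro ℓ _ F V E I Λ _ _ _ _ _ _ _ _ _ _ φ D i0 P
  classical
  -- the map on polynomials
  let j0 : MvPolynomial I (PowerSeries F) →+* MonoidAlgebra F V :=
    MvPolynomial.eval₂Hom ((algebraMap F (MonoidAlgebra F V)).comp
      (PowerSeries.constantCoeff (R := F))) D.x
  have j0X : ∀ i, j0 (X i) = D.x i := fun i => MvPolynomial.eval₂Hom_X' _ _ i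
  have j0C : ∀ r, j0 (C r) = algebraMap F (MonoidAlgebra F V) (PowerSeries.constantCoeff r) :=
    fun r => MvPolynomial.eval₂Hom_C _ _ r
  let j' : MvPolynomial I (PowerSeries F) →+* MonoidAlgebra F (V ⋊[φ] E) :=
    (io F φ).toRingHom.comp j0
  have hj' : ∀ f, j' f = io F φ (j0 f) := fun f => rfl
  let ε' : E →* MonoidAlgebra F (V ⋊[φ] E) :=
    (MonoidAlgebra.of F (V ⋊[φ] E)).comp SemidirectProduct.inr
  have hε' : ∀ e, ε' e = MonoidAlgebra.of F (V ⋊[φ] E) (SemidirectProduct.inr e) := fun e => rfl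
  have j'C : ∀ r, j' (C r) =
      algebraMap F (MonoidAlgebra F (V ⋊[φ] E)) (PowerSeries.constantCoeff r) := by
    intro r
    rw [hj', j0C, AlgHom.commutes]
  obtain ⟨h, hh, hε⟩ := P.up (MonoidAlgebra F (V ⋊[φ] E)) j' ε' (by
    intro i
    rw [hj', j0X, ← map_pow, D.x0, map_zero, j'C]
    have hc : PowerSeries.constantCoeff (cc (PowerSeries F) I PowerSeries.X i0 i) = 0 := by
      unfold cc
      split_ifs
      · exact map_zero _
      · exact PowerSeries.constantCoeff_X
    rw [hc, map_zero, zero_mul]) (by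
    intro e i
    rw [hε', j'C, hj', j0X, ofr_io, D.xe, map_smul, Algebra.smul_def]
    congr 3) (by
    intro e a
    rw [j'C]
    exact (Algebra.commutes _ _).symm)
  -- scalars
  have hsc : ∀ r : PowerSeries F, h (algebraMap (PowerSeries F) Λ r) =
      algebraMap F (MonoidAlgebra F (V ⋊[φ] E)) (PowerSeries.constantCoeff r) := by
    intro r
    rw [← j'C, ← hh]
    congr 1
    exact (P.j.commutes r).symm
  have hsm : ∀ (r : PowerSeries F) (y : Λ), h (r • y) = PowerSeries.constantCoeff r • h y := by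
    intro r y
    rw [Algebra.smul_def, map_mul, hsc, ← Algebra.smul_def]
  -- the basis
  have hmo : ∀ α, j0 (mo (PowerSeries F) I α) = D.b α := by
    intro α
    unfold mo
    rw [map_prod, D.hb]
    refine Finset.prod_congr rfl fun i _ => ?_
    rw [map_pow, j0X]
  have hb : ∀ α e, h (P.b (α, e)) =
      io F φ (D.b α) * MonoidAlgebra.of F (V ⋊[φ] E) (SemidirectProduct.inr e) := by
    intro α e
    rw [P.hb, map_mul, hh, hε, hj', hmo, hε']
  -- surjectivity
  have hs1 : ∀ z : MonoidAlgebra F V, ∃ f, j0 f = z := by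
    intro z
    refine ⟨∑ α, C (PowerSeries.C (D.b.repr z α)) * mo (PowerSeries F) I α, ?_⟩
    rw [map_sum]
    conv_rhs => rw [← D.b.sum_repr z]
    refine Finset.sum_congr rfl fun α _ => ?_
    rw [map_mul, j0C, hmo, PowerSeries.constantCoeff_C, Algebra.smul_def]
  have hsurj : Function.Surjective h := by
    intro s
    induction s using MonoidAlgebra.induction_on with
    | of g =>
      obtain ⟨f, hf⟩ := hs1 (MonoidAlgebra.of F V g.left)
      refine ⟨P.j f * P.ε g.right, ?_⟩
      rw [map_mul, hh, hε, hj', hf, io_of, hε', ← map_mul]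
      congr 1
      exact SemidirectProduct.inl_left_mul_inr_right g
    | add x y hx hy =>
      obtain ⟨a, ha⟩ := hx
      obtain ⟨b, hb⟩ := hy
      exact ⟨a + b, by rw [map_add, ha, hb]⟩
    | smul r x hx =>
      obtain ⟨a, ha⟩ := hx
      refine ⟨(PowerSeries.C r : PowerSeries F) • a, ?_⟩
      rw [hsm, ha, PowerSeries.constantCoeff_C]
  -- the kernel
  have hker : ∀ x, h x = 0 → ∃ y, x = (PowerSeries.X : PowerSeries F) • y := by
    intro x hx
    have h1 : ∀ k, PowerSeries.constantCoeff (P.b.repr x k) = 0 := by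
      rintro ⟨α, e⟩
      have h2 : ∑ k : (∀ i, Fin (ℓ ^ D.a i)) × E, PowerSeries.constantCoeff (P.b.repr x k) •
          (io F φ (D.b k.1) * MonoidAlgebra.of F (V ⋊[φ] E) (SemidirectProduct.inr k.2)) = 0 := by
        rw [← hx]
        conv_rhs => rw [← P.b.sum_repr x]
        rw [map_sum]
        refine Finset.sum_congr rfl fun k _ => ?_
        rw [hsm, ← hb]
      have h3 := congrArg (pj F φ e) h2
      rw [map_zero, map_sum, Fintype.sum_prod_type] at h3
      have h4 : ∀ β : (∀ i, Fin (ℓ ^ D.a i)), ∑ e' : E, pj F φ e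
          (PowerSeries.constantCoeff (P.b.repr x (β, e')) • (io F φ (D.b β) *
            MonoidAlgebra.of F (V ⋊[φ] E) (SemidirectProduct.inr e'))) =
          PowerSeries.constantCoeff (P.b.repr x (β, e)) • D.b β := by
        intro β
        rw [Finset.sum_eq_single e]
        · rw [map_smul, pj_same]
        · intro e' _ he'
          rw [map_smul, pj_ne F φ e e' he', smul_zero]
        · intro he
          exact absurd (Finset.mem_univ e) he
      rw [Finset.sum_congr rfl fun β _ => h4 β] at h3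
      exact (Fintype.linearIndependent_iff.mp D.b.linearIndependent) _ h3 α
    have h5 : ∀ k, ∃ r : PowerSeries F, P.b.repr x k = PowerSeries.X * r := by
      intro k
      exact PowerSeries.X_dvd_iff.mpr (h1 k)
    choose r hr using h5
    refine ⟨∑ k, r k • P.b k, ?_⟩
    conv_lhs => rw [← P.b.sum_repr x]
    rw [Finset.smul_sum]
    refine Finset.sum_congr rfl fun k _ => ?_
    rw [hr, mul_smul]
  exact ⟨⟨h, hsc, hsurj, hker⟩, fun e => hε e⟩

end Pool.Agent.PFC.B3.H30
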