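import Pool.Agent.PFC.StmtsB1

/-!
Squad PFC, row LFB: a balanced bilinear map to `A` lifts to a balanced bilinear map to `Γ × P`.
-/

set_option autoImplicit false

namespace Pool.Agent.PFC.B1.H30

open Pool.Agent.PFC.B1 MulOpposite

section lin

variable {R Γ P : Type} [CommRing R] [Ring Γ] [Algebra R Γ] [AddCommGroup P] [Module R P]

/-- left multiplication as a linear map -/
def laL (B : BiM R Γ P) (γ : Γ) : Γ × P →ₗ[R] Γ × P :=
  (LinearMap.mulLeft R γ).prodMap (B.lm γ)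

/-- right multiplication as a linear map -/
def raL (B : BiM R Γ P) (γ : Γ) : Γ × P →ₗ[R] Γ × P :=
  (LinearMap.mulRight R γ).prodMap (B.rm (op γ))

theorem laL_apply (B : BiM R Γ P) (γ : Γ) (z : Γ × P) : laL B γ z = B.la γ z := rfl

theorem raL_apply (B : BiM R Γ P) (γ : Γ) (z : Γ × P) : raL B γ z = B.ra z γ := rfl

theorem laL_mul (B : BiM R Γ P) (γ δ : Γ) (z : Γ × P) :
    laL B (γ * δ) z = laL B γ (laL B δ z) := by
  apply Prod.ext
  · show γ * δ * z.1 = γ * (δ * z.1)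
    rw [mul_assoc]
  · show B.lm (γ * δ) z.2 = B.lm γ (B.lm δ z.2)
    rw [map_mul]; rfl

theorem raL_mul (B : BiM R Γ P) (γ δ : Γ) (z : Γ × P) :
    raL B (γ * δ) z = raL B δ (raL B γ z) := by
  apply Prod.ext
  · show z.1 * (γ * δ) = z.1 * γ * δ
    rw [mul_assoc]
  · show B.rm (op (γ * δ)) z.2 = B.rm (op δ) (B.rm (op γ) z.2)
    rw [op_mul, map_mul]; rfl

theorem laL_raL (B : BiM R Γ P) (γ δ : Γ) (z : Γ × P) :
    laL B γ (raL B δ z) = raL B δ (laL B γ z) := by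
  apply Prod.ext
  · show γ * (z.1 * δ) = γ * z.1 * δ
    rw [mul_assoc]
  · exact B.comm γ (op δ) z.2

theorem laL_add (B : BiM R Γ P) (γ δ : Γ) (z : Γ × P) :
    laL B (γ + δ) z = laL B γ z + laL B δ z := by
  apply Prod.ext
  · show (γ + δ) * z.1 = γ * z.1 + δ * z.1
    rw [add_mul]
  · show B.lm (γ + δ) z.2 = B.lm γ z.2 + B.lm δ z.2
    rw [map_add]; rfl

theorem laL_smul (B : BiM R Γ P) (r : R) (γ : Γ) (z : Γ × P) :
    laL B (r • γ) z = r • laL B γ z := by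
  apply Prod.ext
  · show (r • γ) * z.1 = r • (γ * z.1)
    rw [smul_mul_assoc]
  · show B.lm (r • γ) z.2 = r • B.lm γ z.2
    rw [map_smul]; rfl

theorem raL_add (B : BiM R Γ P) (γ δ : Γ) (z : Γ × P) :
    raL B (γ + δ) z = raL B γ z + raL B δ z := by
  apply Prod.ext
  · show z.1 * (γ + δ) = z.1 * γ + z.1 * δ
    rw [mul_add]
  · show B.rm (op (γ + δ)) z.2 = B.rm (op γ) z.2 + B.rm (op δ) z.2
    rw [op_add, map_add]; rfl

theorem raL_smul (B : BiM R Γ P) (r : R) (γ : Γ) (z : Γ × P) :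
    raL B (r • γ) z = r • raL B γ z := by
  apply Prod.ext
  · show z.1 * (r • γ) = r • (z.1 * γ)
    rw [mul_smul_comm]
  · show B.rm (op (r • γ)) z.2 = r • B.rm (op γ) z.2
    rw [op_smul, map_smul]; rfl

theorem lm_mul (B : BiM R Γ P) (γ δ : Γ) (z : P) : B.lm (γ * δ) z = B.lm γ (B.lm δ z) := by
  rw [map_mul]; rfl

theorem rm_mul (B : BiM R Γ P) (γ δ : Γ) (z : P) :
    B.rm (op (γ * δ)) z = B.rm (op δ) (B.rm (op γ) z) := by
  rw [op_mul, map_mul]; rfl

theorem lm_add (B : BiM R Γ P) (γ δ : Γ) (z : P) :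
    B.lm (γ + δ) z = B.lm γ z + B.lm δ z := by
  rw [map_add]; rfl

theorem lm_smul (B : BiM R Γ P) (r : R) (γ : Γ) (z : P) :
    B.lm (r • γ) z = r • B.lm γ z := by
  rw [map_smul]; rfl

theorem rm_add (B : BiM R Γ P) (γ δ : Γ) (z : P) :
    B.rm (op (γ + δ)) z = B.rm (op γ) z + B.rm (op δ) z := by
  rw [op_add, map_add]; rfl

theorem rm_smul (B : BiM R Γ P) (r : R) (γ : Γ) (z : P) :
    B.rm (op (r • γ)) z = r • B.rm (op γ) z := by
  rw [op_smul, map_smul]; rfl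

variable {I : Type} [Fintype I] (c : FS R Γ I)

/-- one term of the average -/
def tm (B : BiM R Γ P) (β1 : P →ₗ[R] P →ₗ[R] Γ × P) (a1 a2 : P →ₗ[R] P)
    (u1 v1 u2 v2 u3 v3 : Γ) (x y : P) : Γ × P :=
  laL B u1 (raL B v3 (β1 (a1 (B.lm v1 (B.rm (op u2) x))) (a2 (B.lm v2 (B.rm (op u3) y)))))

/-- the average -/
def avg (B : BiM R Γ P) (β1 : P →ₗ[R] P →ₗ[R] Γ × P) (a1 a2 : P →ₗ[R] P) :
    P →ₗ[R] P →ₗ[R] Γ × P :=
  LinearMap.mk₂ R (fun x y => ∑ i, ∑ j, ∑ k,
      tm B β1 a1 a2 (c.b i) (c.b' i) (c.b j) (c.b' j) (c.b k) (c.b' k) x y)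
    (fun x x' y => by
      simp only [tm, map_add, LinearMap.add_apply, Finset.sum_add_distrib])
    (fun r x y => by
      simp only [tm, map_smul, LinearMap.smul_apply, Finset.smul_sum])
    (fun x y y' => by
      simp only [tm, map_add, Finset.sum_add_distrib])
    (fun r x y => by
      simp only [tm, map_smul, Finset.smul_sum])

theorem avg_apply (B : BiM R Γ P) (β1 : P →ₗ[R] P →ₗ[R] Γ × P) (a1 a2 : P →ₗ[R] P) (x y : P) :
    avg c B β1 a1 a2 x y = ∑ i, ∑ j, ∑ k,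
      tm B β1 a1 a2 (c.b i) (c.b' i) (c.b j) (c.b' j) (c.b k) (c.b' k) x y := rfl

theorem casf {X : Type} [AddCommGroup X] [Module R X] (cas : CasStmt) (f : Γ → Γ → X)
    (h1 : ∀ u u' v, f (u + u') v = f u v + f u' v) (h2 : ∀ (r : R) u v, f (r • u) v = r • f u v)
    (h3 : ∀ u v v', f u (v + v') = f u v + f u v') (h4 : ∀ (r : R) u v, f u (r • v) = r • f u v)
    (γ : Γ) : ∑ i, f (γ * c.b i) (c.b' i) = ∑ i, f (c.b i) (c.b' i * γ) :=
  cas R Γ I X c (LinearMap.mk₂ R f h1 h2 h3 h4) γ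

theorem tm1 (cas : CasStmt) (B : BiM R Γ P) (β1 : P →ₗ[R] P →ₗ[R] Γ × P)
    (a1 a2 : P →ₗ[R] P) (u2 v2 u3 v3 γ : Γ) (x y : P) :
    ∑ i, tm B β1 a1 a2 (γ * c.b i) (c.b' i) u2 v2 u3 v3 x y =
      ∑ i, tm B β1 a1 a2 (c.b i) (c.b' i * γ) u2 v2 u3 v3 x y := by
  apply casf c cas (fun u v => tm B β1 a1 a2 u v u2 v2 u3 v3 x y)
  · intro u u' v
    simp only [tm, laL_add]
  · intro r u v
    simp only [tm, laL_smul]
  · intro u v v'
    simp only [tm, map_add, LinearMap.add_apply]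
  · intro r u v
    simp only [tm, map_smul, LinearMap.smul_apply]

theorem tm2 (cas : CasStmt) (B : BiM R Γ P) (β1 : P →ₗ[R] P →ₗ[R] Γ × P)
    (a1 a2 : P →ₗ[R] P) (u1 v1 u3 v3 γ : Γ) (x y : P) :
    ∑ i, tm B β1 a1 a2 u1 v1 (γ * c.b i) (c.b' i) u3 v3 x y =
      ∑ i, tm B β1 a1 a2 u1 v1 (c.b i) (c.b' i * γ) u3 v3 x y := by
  apply casf c cas (fun u v => tm B β1 a1 a2 u1 v1 u v u3 v3 x y)
  · intro u u' v
    simp only [tm, rm_add, map_add, LinearMap.add_apply]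
  · intro r u v
    simp only [tm, rm_smul, map_smul, LinearMap.smul_apply]
  · intro u v v'
    simp only [tm, map_add, LinearMap.add_apply]
  · intro r u v
    simp only [tm, map_smul, LinearMap.smul_apply]

theorem tm3 (cas : CasStmt) (B : BiM R Γ P) (β1 : P →ₗ[R] P →ₗ[R] Γ × P)
    (a1 a2 : P →ₗ[R] P) (u1 v1 u2 v2 γ : Γ) (x y : P) :
    ∑ i, tm B β1 a1 a2 u1 v1 u2 v2 (γ * c.b i) (c.b' i) x y =
      ∑ i, tm B β1 a1 a2 u1 v1 u2 v2 (c.b i) (c.b' i * γ) x y := by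
  apply casf c cas (fun u v => tm B β1 a1 a2 u1 v1 u2 v2 u v x y)
  · intro u u' v
    simp only [tm, rm_add, map_add]
  · intro r u v
    simp only [tm, rm_smul, map_smul]
  · intro u v v'
    simp only [tm, raL_add, map_add]
  · intro r u v
    simp only [tm, raL_smul, map_smul]

theorem avg_bal (cas : CasStmt) (B : BiM R Γ P) (β1 : P →ₗ[R] P →ₗ[R] Γ × P)
    (a1 a2 : P →ₗ[R] P) : B.Bal (avg c B β1 a1 a2) := by
  refine ⟨?_, ?_, ?_⟩
  · intro γ x y
    rw [avg_apply, avg_apply, ← laL_apply, map_sum]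
    simp only [map_sum]
    have e1 : ∀ i j k, laL B γ (tm B β1 a1 a2 (c.b i) (c.b' i) (c.b j) (c.b' j) (c.b k) (c.b' k)
        x y) = tm B β1 a1 a2 (γ * c.b i) (c.b' i) (c.b j) (c.b' j) (c.b k) (c.b' k) x y := by
      intro i j k
      simp only [tm]
      rw [laL_mul]
    have e2 : ∀ i j k, tm B β1 a1 a2 (c.b i) (c.b' i) (c.b j) (c.b' j) (c.b k) (c.b' k)
        (B.lm γ x) y = tm B β1 a1 a2 (c.b i) (c.b' i * γ) (c.b j) (c.b' j) (c.b k) (c.b' k)
        x y := by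
      intro i j k
      simp only [tm]
      rw [lm_mul, B.comm γ]
    simp only [e1, e2]
    rw [Finset.sum_comm' (t' := Finset.univ) (s' := fun _ => Finset.univ) (by simp)]
    rw [Finset.sum_comm' (t' := Finset.univ) (s' := fun _ => Finset.univ)
      (s := Finset.univ) (t := fun _ => Finset.univ)
      (f := fun i j => ∑ k, tm B β1 a1 a2 (γ * c.b i) (c.b' i) (c.b j) (c.b' j) (c.b k) (c.b' k)
        x y) (by simp)]
    refine Finset.sum_congr rfl fun j _ => ?_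
    rw [Finset.sum_comm]
    rw [Finset.sum_comm (f := fun i k => tm B β1 a1 a2 (γ * c.b i) (c.b' i) (c.b j) (c.b' j)
      (c.b k) (c.b' k) x y)]
    refine Finset.sum_congr rfl fun k _ => ?_
    exact (tm1 c cas B β1 a1 a2 _ _ _ _ γ x y).symm
  · intro γ x y
    rw [avg_apply, avg_apply]
    refine Finset.sum_congr rfl fun i _ => ?_
    rw [Finset.sum_comm]
    rw [Finset.sum_comm (f := fun j k => tm B β1 a1 a2 (c.b i) (c.b' i) (c.b j) (c.b' j)
      (c.b k) (c.b' k) x (B.lm γ y))]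
    refine Finset.sum_congr rfl fun k _ => ?_
    have e1 : ∀ j, tm B β1 a1 a2 (c.b i) (c.b' i) (c.b j) (c.b' j) (c.b k) (c.b' k)
        (B.rm (op γ) x) y = tm B β1 a1 a2 (c.b i) (c.b' i) (γ * c.b j) (c.b' j) (c.b k) (c.b' k)
        x y := by
      intro j
      simp only [tm]
      rw [rm_mul]
    have e2 : ∀ j, tm B β1 a1 a2 (c.b i) (c.b' i) (c.b j) (c.b' j) (c.b k) (c.b' k)
        x (B.lm γ y) = tm B β1 a1 a2 (c.b i) (c.b' i) (c.b j) (c.b' j * γ) (c.b k) (c.b' k)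
        x y := by
      intro j
      simp only [tm]
      rw [lm_mul, B.comm γ]
    simp only [e1, e2]
    exact tm2 c cas B β1 a1 a2 _ _ _ _ γ x y
  · intro γ x y
    rw [avg_apply, avg_apply, ← raL_apply]
    simp only [map_sum]
    refine Finset.sum_congr rfl fun i _ => ?_
    refine Finset.sum_congr rfl fun j _ => ?_
    have e1 : ∀ k, tm B β1 a1 a2 (c.b i) (c.b' i) (c.b j) (c.b' j) (c.b k) (c.b' k)
        x (B.rm (op γ) y) = tm B β1 a1 a2 (c.b i) (c.b' i) (c.b j) (c.b' j) (γ * c.b k) (c.b' k)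
        x y := by
      intro k
      simp only [tm]
      rw [rm_mul]
    have e2 : ∀ k, raL B γ (tm B β1 a1 a2 (c.b i) (c.b' i) (c.b j) (c.b' j) (c.b k) (c.b' k)
        x y) = tm B β1 a1 a2 (c.b i) (c.b' i) (c.b j) (c.b' j) (c.b k) (c.b' k * γ) x y := by
      intro k
      simp only [tm]
      rw [raL_mul, laL_raL B (c.b i) γ]
    simp only [e1, e2]
    exact tm3 c cas B β1 a1 a2 _ _ _ _ γ x y

end lin

/-- `R`-bilinear maps lift along a surjective linear map from the target, if the source is free -/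
theorem blift (R P N A : Type) [CommRing R] [AddCommGroup P] [Module R P] [Module.Finite R P]
    [Module.Free R P] [AddCommGroup N] [Module R N] [AddCommGroup A] [Module R A]
    (π : N →ₗ[R] A) (hπ : Function.Surjective π) (β0 : P →ₗ[R] P →ₗ[R] A) :
    ∃ β1 : P →ₗ[R] P →ₗ[R] N, ∀ x y, π (β1 x y) = β0 x y := by
  classical
  choose g hg using hπ
  let b := Module.Free.chooseBasis R P
  let β1 : P →ₗ[R] P →ₗ[R] N := b.constr R (fun i => b.constr R (fun j => g (β0 (b i) (b j))))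
  refine ⟨β1, ?_⟩
  have h : β1.compr₂ π = β0 := by
    apply b.ext
    intro i
    apply b.ext
    intro j
    simp only [LinearMap.compr₂_apply, β1, Module.Basis.constr_basis]
    exact hg _
  intro x y
  exact congrArg (fun f => f x y) h

theorem lfb (cas : CasStmt) : LfbStmt := by
  intro F Γ A I P _ _ _ _ _ _ _ _ c D _ _ _ _ L β0 hl hm hr
  -- the map qq as a linear map
  let π : Γ × P →ₗ[PowerSeries F] A := D.j.toLinearMap.coprod L.q
  have hπ : ∀ z, π z = L.qq z := fun z => by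
    show D.j.toLinearMap.coprod L.q z = _
    rw [LinearMap.coprod_apply]; rfl
  have hsur : Function.Surjective π := by
    intro y
    obtain ⟨γ, hγ⟩ := D.e1 y
    have h0 : D.e (y - D.e y) = 0 := by
      rw [map_sub, hγ, D.e2, sub_self]
    obtain ⟨p, hp⟩ := L.q4 _ h0
    refine ⟨(γ, p), ?_⟩
    rw [hπ]
    show D.j γ + L.q p = y
    rw [hp, hγ]; abel
  obtain ⟨β1, hβ1⟩ := blift (PowerSeries F) P (Γ × P) A π hsur β0
  have hπl : ∀ γ z, π (laL L.toBiM γ z) = D.j γ * π z := by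
    intro γ z
    rw [hπ, hπ]
    show D.j (γ * z.1) + L.q (L.lm γ z.2) = D.j γ * (D.j z.1 + L.q z.2)
    rw [map_mul, L.q1, mul_add]
  have hπr : ∀ γ z, π (raL L.toBiM γ z) = π z * D.j γ := by
    intro γ z
    rw [hπ, hπ]
    show D.j (z.1 * γ) + L.q (L.rm (op γ) z.2) = (D.j z.1 + L.q z.2) * D.j γ
    rw [map_mul, L.q2, add_mul]
  -- X kills A
  have hX : ∀ x : A, (PowerSeries.X : PowerSeries F) • x = 0 := by
    intro x
    rw [Algebra.smul_def, D.hX, zero_mul]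
  have hfl : ∀ u v w, L.q u = L.q v → β0 u w = β0 v w := by
    intro u v w h
    have h0 : L.q (u - v) = 0 := by rw [map_sub, h, sub_self]
    obtain ⟨y, hy⟩ := L.q5 _ h0
    have h1 : β0 (u - v) w = 0 := by
      rw [hy, map_smul, LinearMap.smul_apply, hX]
    rw [map_sub, LinearMap.sub_apply, sub_eq_zero] at h1
    exact h1
  have hfr : ∀ u v w, L.q u = L.q v → β0 w u = β0 w v := by
    intro u v w h
    have h0 : L.q (u - v) = 0 := by rw [map_sub, h, sub_self]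
    obtain ⟨y, hy⟩ := L.q5 _ h0
    have h1 : β0 w (u - v) = 0 := by
      rw [hy, map_smul, hX]
    rw [map_sub, sub_eq_zero] at h1
    exact h1
  let a2 : P →ₗ[PowerSeries F] P := ∑ l, (L.lm (c.b l)) ∘ₗ L.a' ∘ₗ (L.lm (c.b' l))
  have ha2 : ∀ z, a2 z = ∑ l, L.lm (c.b l) (L.a' (L.lm (c.b' l) z)) := by
    intro z
    show (∑ l, (L.lm (c.b l)) ∘ₗ L.a' ∘ₗ (L.lm (c.b' l))) z = _
    rw [LinearMap.sum_apply]; rfl
  refine ⟨avg c L.toBiM β1 L.a' a2, avg_bal c cas L.toBiM β1 L.a' a2, ?_⟩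
  intro x y
  rw [← hπ, avg_apply]
  simp only [map_sum]
  have e1 : ∀ i j k, π (tm L.toBiM β1 L.a' a2 (c.b i) (c.b' i) (c.b j) (c.b' j) (c.b k) (c.b' k)
      x y) = β0 (L.lm (c.b i) (L.a' (L.lm (c.b' i) (L.rm (op (c.b j)) x))))
        (L.rm (op (c.b' k)) (a2 (L.rm (op (c.b k)) (L.lm (c.b' j) y)))) := by
    intro i j k
    rw [hl, hr]
    simp only [tm]
    rw [hπl, hπr, hβ1, L.comm (c.b' j)]
  simp only [e1]
  have e2 : ∀ j, ∑ i, ∑ k, β0 (L.lm (c.b i) (L.a' (L.lm (c.b' i) (L.rm (op (c.b j)) x))))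
        (L.rm (op (c.b' k)) (a2 (L.rm (op (c.b k)) (L.lm (c.b' j) y)))) =
      β0 (∑ i, L.lm (c.b i) (L.a' (L.lm (c.b' i) (L.rm (op (c.b j)) x))))
        (∑ k, L.rm (op (c.b' k)) (a2 (L.rm (op (c.b k)) (L.lm (c.b' j) y)))) := by
    intro j
    rw [Finset.sum_comm]
    simp only [map_sum, LinearMap.sum_apply]
  rw [Finset.sum_comm]
  simp only [e2]
  have e3 : ∀ z, L.q (∑ k, L.rm (op (c.b' k)) (a2 (L.rm (op (c.b k)) z))) = L.q z := by
    intro z
    rw [← L.a'_id z]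
    apply congrArg
    rw [Finset.sum_comm]
    refine Finset.sum_congr rfl fun k _ => ?_
    rw [ha2, map_sum]
    refine Finset.sum_congr rfl fun l _ => ?_
    exact (L.comm _ _ _).symm
  have e4 : ∀ j w, β0 w (∑ k, L.rm (op (c.b' k)) (a2 (L.rm (op (c.b k)) (L.lm (c.b' j) y)))) =
      β0 (L.rm (op (c.b' j)) w) y := by
    intro j w
    rw [hfr _ _ w (e3 _), hm]
  simp only [e4]
  rw [← LinearMap.sum_apply, ← map_sum]
  apply hfl
  rw [← L.a'_id x]
  apply congrArg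
  rw [Finset.sum_comm]
  refine Finset.sum_congr rfl fun j _ => ?_
  rw [map_sum]
  refine Finset.sum_congr rfl fun i _ => ?_
  exact (L.comm _ _ _).symm

end Pool.Agent.PFC.B1.H30
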