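import Pool.Agent.PFC.StmtsB5c

/-! Squad PFC, row TPB: the split Brauer quotient at V is the group algebra of V. -/

open scoped BigOperators TensorProduct

noncomputable section

namespace Pool.Agent.PFC.B5c.H30

open Pool.Agent.PFC.B5a (zin BkiStmt)

theorem lsum {F V A : Type} [Field F] [CommGroup V] [Fintype V] [Ring A] [Algebra F A]
    (α : V →* A) (x : MonoidAlgebra F V) :
    MonoidAlgebra.lift F A V α x = ∑ u, x.coeff u • α u := by
  rw [MonoidAlgebra.lift_apply]
  rw [Finsupp.sum_fintype]
  intro u
  exact zero_smul _ _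

theorem tpb (hbki : BkiStmt) (htrb : TrbStmt) : TpbStmt := by
  intro ℓ hℓ F V _ _ _ _ X hV hcp htp
  obtain ⟨h1, h2, h3⟩ := hbki F V X.A X.ι ⊤
  let f : MonoidAlgebra F V →ₐ[F] X.A := MonoidAlgebra.lift F X.A V X.ι
  have hf : ∀ x, f x = ∑ u, x.coeff u • X.ι u := fun x => lsum X.ι x
  have hfC : ∀ x, f x ∈ Cz F X.ι ⊤ := by
    intro x
    rw [hf]
    refine Subalgebra.sum_mem _ fun u _ => Subalgebra.smul_mem _ ?_ _
    exact (zin F X.ι ⊤ u).2
  have hex : ∀ a : Cz F X.ι ⊤, ∃ x : MonoidAlgebra F V, (a : X.A) - f x ∈ BK (cj F X.ι) ⊤ := by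
    intro a
    obtain ⟨c, hc⟩ := htp.span a ((h1 a).2 a.2)
    refine ⟨MonoidAlgebra.ofCoeff (Finsupp.equivFunOnFinite.symm c), ?_⟩
    rw [hf]
    exact hc
  choose g hg using hex
  have huq : ∀ (a : Cz F X.ι ⊤) (x : MonoidAlgebra F V), (a : X.A) - f x ∈ BK (cj F X.ι) ⊤ →
      g a = x := by
    intro a x hx
    have h4 : f (x - g a) ∈ BK (cj F X.ι) ⊤ := by
      have h5 := Submodule.sub_mem _ (hg a) hx
      rw [map_sub]
      have h6 : (a : X.A) - f (g a) - ((a : X.A) - f x) = f x - f (g a) := by abel
      rwa [h6] at h5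
    rw [hf] at h4
    have h5 := htp.free _ h4
    have h6 : x - g a = 0 := by
      ext u
      exact congrFun h5 u
    exact (sub_eq_zero.1 h6).symm
  let q : Cz F X.ι ⊤ →ₐ[F] MonoidAlgebra F V :=
    { toFun := g
      map_one' := by
        apply huq
        rw [map_one]
        simp
      map_zero' := by
        apply huq
        rw [map_zero]
        simp
      map_add' := by
        intro a b
        apply huq
        rw [map_add]
        have h6 : ((a + b : Cz F X.ι ⊤) : X.A) - (f (g a) + f (g b)) =
            ((a : X.A) - f (g a)) + ((b : X.A) - f (g b)) := by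
          rw [Subalgebra.coe_add]
          abel
        rw [h6]
        exact Submodule.add_mem _ (hg a) (hg b)
      map_mul' := by
        intro a b
        apply huq
        rw [map_mul]
        have h6 : ((a * b : Cz F X.ι ⊤) : X.A) - (f (g a) * f (g b)) =
            ((a : X.A) - f (g a)) * b + f (g a) * ((b : X.A) - f (g b)) := by
          rw [Subalgebra.coe_mul, sub_mul, mul_sub]
          abel
        rw [h6]
        exact Submodule.add_mem _ (h3 _ b.2 _ (hg a)).2 (h3 _ (hfC _) _ (hg b)).1
      commutes' := by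
        intro r
        apply huq
        rw [f.commutes]
        simp }
  refine htrb ℓ F V X (IA.gr F V) ⊤ q hV hcp ?_ ?_ ?_
  · intro x
    refine ⟨⟨f x, hfC x⟩, ?_⟩
    change g _ = x
    apply huq
    rw [sub_self]
    exact Submodule.zero_mem _
  · intro a
    change g a = 0 ↔ _
    constructor
    · intro h
      have h4 := hg a
      rw [h, map_zero, sub_zero] at h4
      exact h4
    · intro h
      apply huq
      rw [map_zero, sub_zero]
      exact h
  · intro u
    change g _ = _
    apply huq
    have h5 : f ((IA.gr F V).ι u) = X.ι u := by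
      change MonoidAlgebra.lift F X.A V X.ι (MonoidAlgebra.of F V u) = _
      rw [MonoidAlgebra.lift_of]
    rw [h5]
    have h6 : ((zin F X.ι ⊤ u : Cz F X.ι ⊤) : X.A) = X.ι u := rfl
    rw [h6, sub_self]
    exact Submodule.zero_mem _

end Pool.Agent.PFC.B5c.H30
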